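import Pool.Agent.X193.AHC.Nary

/-!
# MP_0c3240_lc: automatic homeomorphicity of the clones of reducts of pure equality

Every clone isomorphism from a closed clone on `ℕ` which contains all permutations of `ℕ` onto a
closed clone on `ℕ` is a homeomorphism. In particular this holds for the polymorphism clone of
every relational structure on `ℕ` which is first-order definable in `(ℕ, =)`.
-/

namespace Pool.Agent.Results.MP_0c3240_lc.EqualityClones

open Filter Topology Pool.Agent.X193.AHC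

/-- The finitary operations on `α`: the pair `⟨n, f⟩` is the operation `f` of arity `n + 1`. -/
abbrev Op (α : Type) : Type := Σ n : ℕ, ((Fin (n + 1) → α) → α)

/-- The topology of pointwise convergence (`α` is discrete, the operations of a fixed arity carry
the product topology, and `Op α` carries the sum topology). -/
@[reducible] def opTop (α : Type) : TopologicalSpace (Op α) :=
  @instTopologicalSpaceSigma ℕ (fun n => (Fin (n + 1) → α) → α)
    (fun n => @Pi.topologicalSpace (Fin (n + 1) → α) (fun _ => α) (fun _ => ⊥))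

/-- Clones: sets of operations which contain the projections and are closed under composition. -/
structure IsClone {α : Type} (C : Set (Op α)) : Prop where
  proj : ∀ (n : ℕ) (i : Fin (n + 1)), (⟨n, fun x => x i⟩ : Op α) ∈ C
  comp : ∀ (n m : ℕ) (f : (Fin (n + 1) → α) → α) (g : Fin (n + 1) → (Fin (m + 1) → α) → α),
    (⟨n, f⟩ : Op α) ∈ C → (∀ i, (⟨m, g i⟩ : Op α) ∈ C) →
      (⟨m, fun x => f fun i => g i x⟩ : Op α) ∈ C

/-- Clone isomorphisms: bijections which preserve the arities, the projections and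
composition. -/
structure IsCloneIso {α β : Type} (C : Set (Op α)) (D : Set (Op β)) (ξ : C → D) : Prop where
  bij : Function.Bijective ξ
  arity : ∀ f : C, (ξ f).1.1 = f.1.1
  proj : ∀ (n : ℕ) (i : Fin (n + 1)) (h : (⟨n, fun x => x i⟩ : Op α) ∈ C),
    (ξ ⟨⟨n, fun x => x i⟩, h⟩).1 = ⟨n, fun x => x i⟩
  comp : ∀ (n m : ℕ) (f : (Fin (n + 1) → α) → α) (g : Fin (n + 1) → (Fin (m + 1) → α) → α)
    (hf : (⟨n, f⟩ : Op α) ∈ C) (hg : ∀ i, (⟨m, g i⟩ : Op α) ∈ C)
    (hfg : (⟨m, fun x => f fun i => g i x⟩ : Op α) ∈ C)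
    (f' : (Fin (n + 1) → β) → β) (g' : Fin (n + 1) → (Fin (m + 1) → β) → β),
    (ξ ⟨⟨n, f⟩, hf⟩).1 = ⟨n, f'⟩ → (∀ i, (ξ ⟨⟨m, g i⟩, hg i⟩).1 = ⟨m, g' i⟩) →
      (ξ ⟨⟨m, fun x => f fun i => g i x⟩, hfg⟩).1 = ⟨m, fun x => f' fun i => g' i x⟩

/-- Automatic homeomorphicity with respect to the closed clones on `ℕ`: every clone isomorphism
from `C` onto a closed clone on `ℕ` is a homeomorphism. -/
def AutoHomeo (C : Set (Op ℕ)) : Prop :=
  ∀ D : Set (Op ℕ), IsClone D → IsClosed[opTop ℕ] D → ∀ ξ : C → D, IsCloneIso C D ξ →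
    @IsHomeomorph C D (@instTopologicalSpaceSubtype _ (· ∈ C) (opTop ℕ))
      (@instTopologicalSpaceSubtype _ (· ∈ D) (opTop ℕ)) ξ

/-- The set `S ⊆ ℕ ^ κ` is definable, without parameters, by a first-order formula in the language
of pure equality. -/
def EqDefinable {κ : Type} (S : Set (κ → ℕ)) : Prop :=
  @Set.Definable ℕ ∅ FirstOrder.Language.empty FirstOrder.Language.emptyStructure κ S

/-- The polymorphism clone of a relational structure, the relations of which are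
`R i ⊆ α ^ (k i)`. -/
def Pol {α ι : Type} (k : ι → ℕ) (R : ∀ i, Set (Fin (k i) → α)) : Set (Op α) :=
  {F | ∀ (i : ι) (t : Fin (F.1 + 1) → Fin (k i) → α), (∀ j, t j ∈ R i) →
    (fun p => F.2 fun j => t j p) ∈ R i}

section topology

variable {α : Type}

theorem mem_nhds_pi {A : Type} (f : A → α) (S : Set (A → α)) :
    S ∈ @nhds _ (@Pi.topologicalSpace A (fun _ => α) (fun _ => ⊥)) f ↔
      ∃ W : Finset A, ∀ g : A → α, (∀ a ∈ W, g a = f a) → g ∈ S := by
  classical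
  let _ : TopologicalSpace α := ⊥
  have : DiscreteTopology α := ⟨rfl⟩
  rw [nhds_pi, Filter.mem_pi']
  constructor
  · rintro ⟨I, t, ht, hts⟩
    refine ⟨I, fun g hg => hts fun i hi => ?_⟩
    rw [hg i hi]
    exact mem_of_mem_nhds (ht i)
  · rintro ⟨W, hW⟩
    refine ⟨W, fun a => {f a}, fun i => by rw [nhds_discrete]; exact rfl, fun g hg => hW g ?_⟩
    intro a ha
    exact hg a ha

theorem mem_nhds_op (n : ℕ) (f : (Fin (n + 1) → α) → α) (S : Set (Op α)) :
    S ∈ @nhds _ (opTop α) (⟨n, f⟩ : Op α) ↔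
      ∃ W : Finset (Fin (n + 1) → α), ∀ g : (Fin (n + 1) → α) → α,
        (∀ a ∈ W, g a = f a) → (⟨n, g⟩ : Op α) ∈ S := by
  have h1 := @Sigma.nhds_mk ℕ (fun n => (Fin (n + 1) → α) → α)
    (fun n => @Pi.topologicalSpace (Fin (n + 1) → α) (fun _ => α) (fun _ => ⊥)) n f
  rw [h1, Filter.mem_map]
  exact mem_nhds_pi f _

theorem mem_of_closed {C : Set (Op α)} (hC : IsClosed[opTop α] C) {n : ℕ}
    {f : (Fin (n + 1) → α) → α}
    (h : ∀ W : Finset (Fin (n + 1) → α), ∃ g, (⟨n, g⟩ : Op α) ∈ C ∧ ∀ a ∈ W, f a = g a) :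
    (⟨n, f⟩ : Op α) ∈ C := by
  let _ := opTop α
  rw [← hC.closure_eq, mem_closure_iff_nhds]
  intro S hS
  obtain ⟨W, hW⟩ := (mem_nhds_op n f S).1 hS
  obtain ⟨g, hg, hgW⟩ := h W
  exact ⟨⟨n, g⟩, hW g fun a ha => (hgW a ha).symm, hg⟩

theorem closed_of {C : Set (Op α)} (h : ∀ (n : ℕ) (f : (Fin (n + 1) → α) → α),
    (∀ W : Finset (Fin (n + 1) → α), ∃ g, (⟨n, g⟩ : Op α) ∈ C ∧ ∀ a ∈ W, f a = g a) →
      (⟨n, f⟩ : Op α) ∈ C) : IsClosed[opTop α] C := by
  let _ := opTop α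
  refine isClosed_of_closure_subset ?_
  rintro ⟨n, f⟩ hf
  refine h n f fun W => ?_
  rw [mem_closure_iff_nhds] at hf
  have h1 : {F : Op α | ∃ g, F = ⟨n, g⟩ ∧ ∀ a ∈ W, g a = f a} ∈ 𝓝 (⟨n, f⟩ : Op α) :=
    (mem_nhds_op n f _).2 ⟨W, fun g hg => ⟨g, rfl, hg⟩⟩
  obtain ⟨F, ⟨g, rfl, hg⟩, hF⟩ := hf _ h1
  exact ⟨g, hF, fun a ha => (hg a ha).symm⟩

end topology

/-- continuity of a map between sets of operations which preserves arities -/
theorem continuous_of {α β : Type} {C : Set (Op α)} {D : Set (Op β)} (φ : C → D)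
    (X : ∀ n, ((Fin (n + 1) → α) → α) → ((Fin (n + 1) → β) → β))
    (hX : ∀ n f (h : (⟨n, f⟩ : Op α) ∈ C), (φ ⟨⟨n, f⟩, h⟩).1 = ⟨n, X n f⟩)
    (hc : ∀ n f, (⟨n, f⟩ : Op α) ∈ C → ∀ y : Fin (n + 1) → β,
      ∃ W : Finset (Fin (n + 1) → α), ∀ g, (⟨n, g⟩ : Op α) ∈ C → (∀ a ∈ W, g a = f a) →
        X n g y = X n f y) :
    @Continuous C D (@instTopologicalSpaceSubtype _ (· ∈ C) (opTop α))
      (@instTopologicalSpaceSubtype _ (· ∈ D) (opTop β)) φ := by
  classical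
  let _ := opTop α
  let _ := opTop β
  rw [continuous_iff_continuousAt]
  rintro ⟨⟨n, f⟩, hf⟩
  rw [ContinuousAt, tendsto_subtype_rng, nhds_subtype_eq_comap]
  intro S hS
  have h1 : S ∈ 𝓝 (⟨n, X n f⟩ : Op β) := by rw [← hX n f hf]; exact hS
  obtain ⟨W, hW⟩ := (mem_nhds_op n (X n f) S).1 h1
  choose V hV using hc n f hf
  refine ⟨{F : Op α | ∃ g, F = ⟨n, g⟩ ∧ ∀ a ∈ W.biUnion V, g a = f a}, ?_, ?_⟩
  · exact (mem_nhds_op n f _).2 ⟨W.biUnion V, fun g hg => ⟨g, rfl, hg⟩⟩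
  · rintro ⟨F, hF⟩ ⟨g, hFg, hg⟩
    change F = ⟨n, g⟩ at hFg
    subst hFg
    change (φ ⟨⟨n, g⟩, hF⟩).1 ∈ S
    rw [hX n g hF]
    refine hW _ fun y hy => hV y g hF fun a ha => hg a (Finset.mem_biUnion.2 ⟨y, hy, ha⟩)

/-- Every closed clone which contains all permutations has automatic homeomorphicity. -/
theorem auto_of_perm {C : Set (Op ℕ)} (hC : IsClone C) (hCc : IsClosed[opTop ℕ] C)
    (hperm : ∀ σ : Equiv.Perm ℕ, (⟨0, fun x => σ (x 0)⟩ : Op ℕ) ∈ C) : AutoHomeo C := by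
  classical
  intro D hD hDc ξ hξ
  -- the maps in the single arities
  have hex : ∀ (n : ℕ) (f : (Fin (n + 1) → ℕ) → ℕ), ∃ f' : (Fin (n + 1) → ℕ) → ℕ,
      ∀ h : (⟨n, f⟩ : Op ℕ) ∈ C, (ξ ⟨⟨n, f⟩, h⟩).1 = ⟨n, f'⟩ := by
    intro n f
    by_cases h : (⟨n, f⟩ : Op ℕ) ∈ C
    · have h1 := hξ.arity ⟨⟨n, f⟩, h⟩
      obtain ⟨f', hf'⟩ : ∃ f', (ξ ⟨⟨n, f⟩, h⟩).1 = ⟨n, f'⟩ := by
        generalize (ξ ⟨⟨n, f⟩, h⟩).1 = G at h1
        obtain ⟨m, g⟩ := G
        change m = n at h1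
        subst h1
        exact ⟨g, rfl⟩
      exact ⟨f', fun _ => hf'⟩
    · exact ⟨fun _ => 0, fun h' => absurd h' h⟩
  choose X hX using hex
  have hXD : ∀ n f, (⟨n, f⟩ : Op ℕ) ∈ C → (⟨n, X n f⟩ : Op ℕ) ∈ D := by
    intro n f h
    rw [← hX n f h]
    exact (ξ ⟨⟨n, f⟩, h⟩).2
  have hXinj : ∀ n f g, (⟨n, f⟩ : Op ℕ) ∈ C → (⟨n, g⟩ : Op ℕ) ∈ C → X n f = X n g → f = g := by
    intro n f g hf hg hfg
    have h1 : ξ ⟨⟨n, f⟩, hf⟩ = ξ ⟨⟨n, g⟩, hg⟩ := by
      apply Subtype.ext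
      rw [hX n f hf, hX n g hg, hfg]
    have h2 := hξ.bij.1 h1
    have h3 : (⟨n, f⟩ : Op ℕ) = ⟨n, g⟩ := congrArg Subtype.val h2
    exact eq_of_heq (Sigma.mk.inj_iff.1 h3).2
  have hXsurj : ∀ n f', (⟨n, f'⟩ : Op ℕ) ∈ D → ∃ f, (⟨n, f⟩ : Op ℕ) ∈ C ∧ X n f = f' := by
    intro n f' hf'
    obtain ⟨⟨⟨m, f⟩, hf⟩, h1⟩ := hξ.bij.2 ⟨⟨n, f'⟩, hf'⟩
    have h2 : (⟨m, X m f⟩ : Op ℕ) = ⟨n, f'⟩ := by
      rw [← hX m f hf, h1]
    obtain ⟨h3, h4⟩ := Sigma.mk.inj_iff.1 h2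
    subst h3
    exact ⟨f, hf, eq_of_heq h4⟩
  have hXproj : ∀ n (i : Fin (n + 1)), X n (fun x => x i) = fun x => x i := by
    intro n i
    have h1 := hξ.proj n i (hC.proj n i)
    rw [hX n _ (hC.proj n i)] at h1
    exact eq_of_heq (Sigma.mk.inj_iff.1 h1).2
  have hXcomp : ∀ n m (f : (Fin (n + 1) → ℕ) → ℕ) (g : Fin (n + 1) → (Fin (m + 1) → ℕ) → ℕ),
      (⟨n, f⟩ : Op ℕ) ∈ C → (∀ i, (⟨m, g i⟩ : Op ℕ) ∈ C) →
      X m (fun x => f fun i => g i x) = fun x => X n f fun i => X m (g i) x := by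
    intro n m f g hf hg
    have hfg := hC.comp n m f g hf hg
    have h1 := hξ.comp n m f g hf hg hfg (X n f) (fun i => X m (g i)) (hX n f hf)
      (fun i => hX m (g i) (hg i))
    rw [hX m _ hfg] at h1
    exact eq_of_heq (Sigma.mk.inj_iff.1 h1).2
  -- the unary operations
  let u : (ℕ → ℕ) → (Fin (0 + 1) → ℕ) → ℕ := fun f x => f (x 0)
  have huinj : ∀ f : ℕ → ℕ, Function.Injective f → (⟨0, u f⟩ : Op ℕ) ∈ C := by
    intro f hf
    refine mem_of_closed hCc fun W => ?_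
    obtain ⟨σ, hσ⟩ := perm_ext f hf (W.image fun x => x 0)
    exact ⟨fun x => σ (x 0), hperm σ, fun a ha => (hσ _ (Finset.mem_image_of_mem _ ha)).symm⟩
  have hucomp : ∀ f g : ℕ → ℕ, (⟨0, u f⟩ : Op ℕ) ∈ C → (⟨0, u g⟩ : Op ℕ) ∈ C →
      (⟨0, u (f ∘ g)⟩ : Op ℕ) ∈ C := fun f g hf hg => hC.comp 0 0 (u f) (fun _ => u g) hf fun _ => hg
  let θ : (ℕ → ℕ) → ℕ → ℕ := fun f y => X 0 (u f) fun _ => y
  have hθcomp : ∀ f g : ℕ → ℕ, (⟨0, u f⟩ : Op ℕ) ∈ C → (⟨0, u g⟩ : Op ℕ) ∈ C →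
      θ (f ∘ g) = θ f ∘ θ g := by
    intro f g hf hg
    funext y
    have h1 := hXcomp 0 0 (u f) (fun _ => u g) hf fun _ => hg
    exact congrFun h1 fun _ => y
  have hθid : θ id = id := by
    funext y
    exact congrFun (hXproj 0 0) fun _ => y
  have hsub : ∀ x : Fin (0 + 1) → ℕ, (fun _ => x 0) = x := fun x => funext fun i => by
    exact congrArg x (Fin.ext (by omega))
  have hsupp : ∀ y, ∃ t, Supp θ t y := by
    intro y
    refine supp_all (C := {f | (⟨0, u f⟩ : Op ℕ) ∈ C}) (θ := θ) huinj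
      (fun f hf g hg => hucomp f g hf hg) (fun f hf g hg => hθcomp f g hf hg) hθid ?_ ?_ y
    · intro f hf g hg hfg
      have h1 : X 0 (u f) = X 0 (u g) := by
        funext x
        have h2 := congrFun hfg (x 0)
        change X 0 (u f) (fun _ => x 0) = X 0 (u g) (fun _ => x 0) at h2
        rwa [hsub x] at h2
      have h3 := hXinj 0 _ _ hf hg h1
      funext n
      exact congrFun h3 fun _ => n
    · intro F hF
      have h1 : (⟨0, u F⟩ : Op ℕ) ∈ D := by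
        refine mem_of_closed hDc fun W => ?_
        obtain ⟨f, hf, hfW⟩ := hF (W.image fun x => x 0)
        refine ⟨X 0 (u f), hXD 0 _ hf, fun a ha => ?_⟩
        have h2 := hfW _ (Finset.mem_image_of_mem _ ha)
        change F (a 0) = X 0 (u f) (fun _ => a 0) at h2
        rwa [hsub a] at h2
      obtain ⟨f, hf, hfF⟩ := hXsurj 0 _ h1
      have h2 : u (fun n => f fun _ => n) = f := by
        funext x
        change f (fun _ => x 0) = f x
        rw [hsub x]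
      refine ⟨fun n => f fun _ => n, ?_, ?_⟩
      · change (⟨0, u fun n => f fun _ => n⟩ : Op ℕ) ∈ C
        rw [h2]; exact hf
      · funext y
        change X 0 (u fun n => f fun _ => n) (fun _ => y) = F y
        rw [h2, hfF]
  have hact : ∀ n, Act θ {f : (Fin (n + 1) → ℕ) → ℕ | (⟨n, f⟩ : Op ℕ) ∈ C} (X n) := by
    intro n
    have hr : ∀ c : ℕ → ℕ, Function.Injective c → ∀ i : Fin (n + 1),
        (⟨n, fun x : Fin (n + 1) → ℕ => c (x i)⟩ : Op ℕ) ∈ C ∧
          X n (fun x : Fin (n + 1) → ℕ => c (x i)) = fun x => θ c (x i) := by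
      intro c hc i
      refine ⟨hC.comp 0 n (u c) (fun _ x => x i) (huinj c hc) fun _ => hC.proj n i, ?_⟩
      have h1 := hXcomp 0 n (u c) (fun _ x => x i) (huinj c hc) fun _ => hC.proj n i
      rw [hXproj] at h1
      exact h1
    exact {
      hcomp := fun f g hf hg => hθcomp f g (huinj f hf) (huinj g hg)
      hid := hθid
      hsupp := hsupp
      left_mem := fun l hl f hf => hC.comp 0 n (u l) (fun _ => f) (huinj l hl) fun _ => hf
      left_eq := fun l hl f hf y => by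
        have h1 := hXcomp 0 n (u l) (fun _ => f) (huinj l hl) fun _ => hf
        exact congrFun h1 y
      right_mem := fun c hc f hf => hC.comp n n f (fun i x => c (x i)) hf fun i => (hr c hc i).1
      right_eq := fun c hc f hf y => by
        have h1 := hXcomp n n f (fun i x => c (x i)) hf fun i => (hr c hc i).1
        have h2 := congrFun h1 y
        simp only [(hr c hc _).2] at h2
        exact h2
      closed := fun g hg => mem_of_closed hCc fun W => hg W }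
  -- continuity
  let _ : TopologicalSpace (Op ℕ) := opTop ℕ
  have hcont : Continuous ξ := by
    refine continuous_of ξ X hX fun n f hf y => ?_
    obtain ⟨k, hk⟩ := cont (hact n) hf y
    have hfin : {b : Fin (n + 1) → ℕ | ∀ i, b i ≤ k}.Finite :=
      Set.Finite.pi' (ι := Fin (n + 1)) (t := fun _ => Set.Iic k) (fun _ => Set.finite_Iic k)
    refine ⟨hfin.toFinset, fun g hg hgf => hk g hg fun a ha => hgf a ?_⟩
    exact (Set.Finite.mem_toFinset _).2 ha
  let e : C ≃ D := Equiv.ofBijective ξ hξ.bij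
  have hinv : Continuous e.symm := by
    have hexY : ∀ (n : ℕ) (f' : (Fin (n + 1) → ℕ) → ℕ), ∃ f : (Fin (n + 1) → ℕ) → ℕ,
        (⟨n, f'⟩ : Op ℕ) ∈ D → (⟨n, f⟩ : Op ℕ) ∈ C ∧ X n f = f' := by
      intro n f'
      by_cases h : (⟨n, f'⟩ : Op ℕ) ∈ D
      · obtain ⟨f, hf⟩ := hXsurj n f' h
        exact ⟨f, fun _ => hf⟩
      · exact ⟨fun _ => 0, fun h' => absurd h' h⟩
    choose Z hZ using hexY
    refine continuous_of e.symm Z ?_ ?_
    · intro n f' h
      obtain ⟨h1, h2⟩ := hZ n f' h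
      have h3 : e ⟨⟨n, Z n f'⟩, h1⟩ = ⟨⟨n, f'⟩, h⟩ := by
        apply Subtype.ext
        change (ξ ⟨⟨n, Z n f'⟩, h1⟩).1 = _
        rw [hX, h2]
      rw [← h3, Equiv.symm_apply_apply]
    · intro n f' h a
      obtain ⟨h1, h2⟩ := hZ n f' h
      obtain ⟨W, hW⟩ := cont_inv (hact n) (fun f hf g hg => hXinj n f g hf hg) h1 a
      refine ⟨W, fun g' hg' hgW => ?_⟩
      obtain ⟨h3, h4⟩ := hZ n g' hg'
      refine hW _ h3 fun y hy => ?_
      rw [h4, h2]
      exact hgW y hy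
  exact (Homeomorph.mk e hcont hinv).isHomeomorph

/-- Polymorphism clones are closed clones. -/
theorem isClone_Pol {α ι : Type} (k : ι → ℕ) (R : ∀ i, Set (Fin (k i) → α)) :
    IsClone (Pol k R) := by
  refine ⟨fun n j i t ht => ht j, fun n m f g hf hg i t ht => ?_⟩
  exact hf i (fun j p => g j fun l => t l p) fun j => hg j i t ht

theorem isClosed_Pol {α ι : Type} (k : ι → ℕ) (R : ∀ i, Set (Fin (k i) → α)) :
    IsClosed[opTop α] (Pol k R) := by
  classical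
  refine closed_of fun n f hf i t ht => ?_
  obtain ⟨g, hg, hgf⟩ := hf (Finset.univ.image fun p => fun j => t j p)
  have h1 : (fun p => f fun j => t j p) = fun p => g fun j => t j p :=
    funext fun p => hgf _ (Finset.mem_image_of_mem _ (Finset.mem_univ p))
  change (fun p => f fun j => t j p) ∈ R i
  rw [h1]
  exact hg i t ht

/-- Permutations preserve the relations which are definable in pure equality. -/
theorem perm_Pol {ι : Type} (k : ι → ℕ) (R : ∀ i, Set (Fin (k i) → ℕ))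
    (hR : ∀ i, EqDefinable (R i)) (σ : Equiv.Perm ℕ) :
    (⟨0, fun x => σ (x 0)⟩ : Op ℕ) ∈ Pol k R := by
  intro i t ht
  let _ : FirstOrder.Language.empty.Structure ℕ := FirstOrder.Language.emptyStructure
  obtain ⟨φ, hφ⟩ := Set.empty_definable_iff.1 (hR i)
  have h1 := ht 0
  rw [hφ] at h1 ⊢
  have h2 := (FirstOrder.Language.StrongHomClass.realize_formula σ φ (v := t 0)).2 h1
  exact h2

/-- **Theorem.** Every closed clone on `ℕ` which contains all permutations of `ℕ` has automatic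
homeomorphicity with respect to the closed clones; in particular so does `Pol(𝔸)` for every
relational structure `𝔸` which is first-order definable in `(ℕ, =)`. -/
theorem result :
    (∀ C : Set (Op ℕ), IsClone C → IsClosed[opTop ℕ] C →
      (∀ σ : Equiv.Perm ℕ, (⟨0, fun x => σ (x 0)⟩ : Op ℕ) ∈ C) → AutoHomeo C) ∧
    (∀ (ι : Type) (k : ι → ℕ) (R : ∀ i, Set (Fin (k i) → ℕ)),
      (∀ i, EqDefinable (R i)) → AutoHomeo (Pol k R)) :=
  ⟨fun _ hC hCc hperm => auto_of_perm hC hCc hperm, fun _ k R hR =>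
    auto_of_perm (isClone_Pol k R) (isClosed_Pol k R) fun σ => perm_Pol k R hR σ⟩

end Pool.Agent.Results.MP_0c3240_lc.EqualityClones
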